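import Pool.Agent.Helper3.TD.Eo
import Mathlib.Probability.CentralLimitTheorem
import Mathlib.MeasureTheory.Measure.LevyConvergence
import Mathlib.Probability.Distributions.Gaussian.Real

/-! The binomial measures and their characteristic functions; de Moivre - Laplace. -/

namespace Pool.Agent.Helper12.HT

open MeasureTheory ProbabilityTheory Filter Topology Pool.Agent.Helper3.ND Pool.Agent.Helper3.TD

/-- the points of the standardized binomial measure, shifted by `w` -/
noncomputable def pt (j : ℕ) (w : ℝ) (r : ℕ) : ℝ :=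
  (2 * (od j (r : ℤ) : ℝ) - j) / Real.sqrt j - w

/-- the standardized binomial measure, shifted by `w` -/
noncomputable def nu (j : ℕ) (w : ℝ) : Measure ℝ :=
  ENNReal.ofReal (1 / 2 ^ j) • ∑ r ∈ Finset.range (2 ^ j), Measure.dirac (pt j w r)

theorem nu_apply (j : ℕ) (w : ℝ) {S : Set ℝ} (hS : MeasurableSet S) :
    nu j w S = ENNReal.ofReal (1 / 2 ^ j) *
      ∑ r ∈ Finset.range (2 ^ j), S.indicator (1 : ℝ → ENNReal) (pt j w r) := by
  unfold nu
  rw [Measure.smul_apply, Measure.finsetSum_apply, smul_eq_mul]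
  simp only [Measure.dirac_apply' _ hS]

instance nu_prob (j : ℕ) (w : ℝ) : IsProbabilityMeasure (nu j w) := by
  constructor
  rw [nu_apply j w MeasurableSet.univ]
  simp only [Set.indicator_univ, Pi.one_apply, Finset.sum_const, Finset.card_range, nsmul_eq_mul,
    mul_one]
  rw [← ENNReal.ofReal_natCast, ← ENNReal.ofReal_mul (by positivity)]
  push_cast
  rw [one_div, inv_mul_cancel₀ (by positivity), ENNReal.ofReal_one]

theorem nu_real (j : ℕ) (w s : ℝ) : (nu j w).real (Set.Iic s) =
    Eo j (fun i => if (2 * (i : ℝ) - j) / Real.sqrt j - w ≤ s then 1 else 0) := by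
  unfold Measure.real
  rw [nu_apply j w measurableSet_Iic, ENNReal.toReal_mul, ENNReal.toReal_ofReal (by positivity),
    ENNReal.toReal_sum]
  · unfold Eo
    rw [one_div, mul_comm, ← div_eq_mul_inv]
    congr 1
    apply Finset.sum_congr rfl
    intro r _
    unfold pt
    by_cases h : (2 * (od j (r : ℤ) : ℝ) - j) / Real.sqrt j - w ≤ s
    · rw [Set.indicator_of_mem (Set.mem_Iic.mpr h)]
      simp [h]
    · rw [Set.indicator_of_notMem (fun hc => h (Set.mem_Iic.mp hc))]
      simp [h]
  · intro r _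
    by_cases h : pt j w r ∈ Set.Iic s
    · rw [Set.indicator_of_mem h]; simp
    · rw [Set.indicator_of_notMem h]; simp

theorem nu_int {E : Type*} [NormedAddCommGroup E] [NormedSpace ℝ E] [CompleteSpace E]
    (j : ℕ) (w : ℝ) (f : ℝ → E) :
    ∫ x, f x ∂(nu j w) = (1 / 2 ^ j : ℝ) • ∑ r ∈ Finset.range (2 ^ j), f (pt j w r) := by
  unfold nu
  rw [integral_smul_measure, integral_finsetSum_measure]
  · rw [ENNReal.toReal_ofReal (by positivity)]
    simp only [integral_dirac]
  · intro r _
    exact integrable_dirac (by simp)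

theorem exp_sum (z : ℂ) (n : ℕ) :
    ∑ r ∈ Finset.range (2 ^ n), Complex.exp (z * (2 * (od n (r : ℤ) : ℂ) - n) * Complex.I) =
      (Complex.exp (z * Complex.I) + Complex.exp (-(z * Complex.I))) ^ n := by
  induction n with
  | zero => simp [od]
  | succ n ih =>
    have h := sum_last n (fun (k : ℕ) (_ : ℤ) =>
      Complex.exp (z * (2 * (k : ℂ) - ((n + 1 : ℕ) : ℂ)) * Complex.I))
    rw [h, pow_succ, ← ih, Finset.sum_mul]
    apply Finset.sum_congr rfl
    intro r _
    rw [mul_add, ← Complex.exp_add, ← Complex.exp_add, add_comm]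
    congr 2
    · push_cast; ring
    · push_cast; ring

theorem charFun_nu (j : ℕ) (w t : ℝ) : charFun (nu j w) t =
    Complex.exp (-(t * w * Complex.I)) *
      ((Complex.exp ((((Real.sqrt j)⁻¹ * t : ℝ) : ℂ) * Complex.I) +
        Complex.exp (-((((Real.sqrt j)⁻¹ * t : ℝ) : ℂ) * Complex.I))) / 2) ^ j := by
  rw [charFun_apply_real, nu_int, div_pow, ← exp_sum, Finset.sum_div, Finset.mul_sum,
    Finset.smul_sum]
  apply Finset.sum_congr rfl
  intro r _
  rw [Complex.real_smul, mul_div_assoc', ← Complex.exp_add]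
  have e : (t : ℂ) * ((pt j w r : ℝ) : ℂ) * Complex.I =
      -(t * w * Complex.I) + (((Real.sqrt j)⁻¹ * t : ℝ) : ℂ) * (2 * (od j (r : ℤ) : ℂ) - j) *
        Complex.I := by
    unfold pt
    push_cast
    ring
  rw [e]
  push_cast
  ring

theorem charFun_nu' (j : ℕ) (w t : ℝ) : charFun (nu j w) t =
    Complex.exp (-(t * w * Complex.I)) * (charFun (nu 1 0) ((Real.sqrt j)⁻¹ * t)) ^ j := by
  rw [charFun_nu j w t, charFun_nu 1 0]
  simp

theorem tend_cf (j : ℕ → ℕ) (w : ℕ → ℝ) (hj : Tendsto j atTop atTop)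
    (hw : Tendsto w atTop (𝓝 0)) (t : ℝ) :
    Tendsto (fun n => charFun (nu (j n) (w n)) t) atTop (𝓝 (charFun (gaussianReal 0 1) t)) := by
  have h1 := tendsto_charFun_inv_sqrt_mul_pow (P := nu 1 0) (X := id) aemeasurable_id
    (by
      rw [nu_int]
      simp [Finset.sum_range_succ, pt, od])
    (by
      rw [nu_int]
      simp [Finset.sum_range_succ, pt, od]
      norm_num) t
  rw [Measure.map_id] at h1
  have h2 := h1.comp hj
  have h3 : Tendsto (fun n => Complex.exp (-(t * (w n : ℂ) * Complex.I))) atTop (𝓝 1) := by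
    have hc : Continuous (fun x : ℝ => Complex.exp (-(t * (x : ℂ) * Complex.I))) := by fun_prop
    have h4 : Tendsto (fun n => Complex.exp (-(t * (w n : ℂ) * Complex.I))) atTop
        (𝓝 (Complex.exp (-(t * ((0 : ℝ) : ℂ) * Complex.I)))) := (hc.tendsto 0).comp hw
    simpa using h4
  have h5 := h3.mul h2
  have e : charFun (gaussianReal 0 1) t = 1 * Complex.exp (-(t : ℂ) ^ 2 / 2) := by
    rw [charFun_gaussianReal]
    simp [neg_div]
  rw [e]
  refine h5.congr ?_
  intro n
  rw [charFun_nu']
  rfl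

/-- the binomial measure as a probability measure -/
noncomputable def nuP (j : ℕ) (w : ℝ) : ProbabilityMeasure ℝ := ⟨nu j w, nu_prob j w⟩

/-- the normal law as a probability measure -/
noncomputable def gP : ProbabilityMeasure ℝ := ⟨gaussianReal 0 1, inferInstance⟩

theorem tend_Iic (j : ℕ → ℕ) (w : ℕ → ℝ) (hj : Tendsto j atTop atTop)
    (hw : Tendsto w atTop (𝓝 0)) (s : ℝ) :
    Tendsto (fun n => (nu (j n) (w n)).real (Set.Iic s)) atTop
      (𝓝 ((gaussianReal 0 1).real (Set.Iic s))) := by
  have h1 : Tendsto (fun n => nuP (j n) (w n)) atTop (𝓝 gP) :=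
    ProbabilityMeasure.tendsto_of_tendsto_charFun (fun t => tend_cf j w hj hw t)
  have hg : (gaussianReal 0 1) (frontier (Set.Iic s)) = 0 := by
    rw [frontier_Iic]
    have : NullSingletonClass (gaussianReal 0 1) :=
      nullSingletonClass_gaussianReal (by norm_num)
    exact measure_singleton s
  have h2 : Tendsto (fun n => (nu (j n) (w n)) (Set.Iic s)) atTop
      (𝓝 ((gaussianReal 0 1) (Set.Iic s))) :=
    ProbabilityMeasure.tendsto_measure_of_null_frontier_of_tendsto' h1 hg
  exact (ENNReal.tendsto_toReal (measure_ne_top _ _)).comp h2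

end Pool.Agent.Helper12.HT
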