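import Pool.Agent.Helper3.HT.Stmts
import Pool.Agent.Helper12.HT.Bin1

/-! de Moivre - Laplace for the walk of the scales: the row BIN. -/

namespace Pool.Agent.Helper3.HT

open Pool.Agent.Helper3.ND Pool.Agent.Helper3.TD Filter Topology

theorem bin_key (j : ℕ) (a s : ℝ) (i : ℕ) (hj : 1 ≤ j) :
    ((2 * (i : ℝ) - j) / Real.sqrt j -
      (((j : ℝ) * TD.mu - a) / (Real.log 3 / 2 * Real.sqrt j) - s) ≤ s) ↔ bk a j i ≤ 0 := by
  have hsq : 0 < Real.sqrt j := Real.sqrt_pos.mpr (by exact_mod_cast hj)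
  have hL : 0 < Real.log 3 := Real.log_pos (by norm_num)
  have hpos : 0 < 2 / (Real.log 3 * Real.sqrt j) := by positivity
  have e : (2 * (i : ℝ) - j) / Real.sqrt j -
      (((j : ℝ) * TD.mu - a) / (Real.log 3 / 2 * Real.sqrt j) - s) =
      s + 2 / (Real.log 3 * Real.sqrt j) * bk a j i := by
    unfold TD.mu bk
    field_simp
    ring
  rw [e]
  constructor
  · intro h
    by_contra hc
    push Not at hc
    have := mul_pos hpos hc
    linarith
  · intro h
    have := mul_nonpos_of_nonneg_of_nonpos hpos.le h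
    linarith

theorem bin : ST_BIN := by
  intro s a j hj hu
  have hw : Tendsto (fun X => ((j X : ℝ) * TD.mu - a X) / (Real.log 3 / 2 * Real.sqrt (j X)) - s)
      atTop (𝓝 0) := by
    have := hu.sub_const s
    rwa [sub_self] at this
  have h := Pool.Agent.Helper12.HT.tend_Iic j _ hj hw s
  refine h.congr' ?_
  filter_upwards [hj.eventually_ge_atTop 1] with X hX
  rw [Pool.Agent.Helper12.HT.nu_real]
  unfold PW
  congr 1
  ext i
  simp only [bin_key (j X) (a X) s i hX]

end Pool.Agent.Helper3.HT
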